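import Pool.Agent.Q26.FN.Law
import Pool.Agent.H447R2.ML.R5

set_option autoImplicit false

/-!
# Fermat numbers with a fixed base and a real amplitude
-/

namespace Pool.Agent.Q21.FA

open Finset Filter Topology MeasureTheory
open Pool.Agent.H447R2.ML (Sh mean_shift pair_bound_sh sh_of ff_eq_floor)
open Pool.Agent.H305R2 (roughPart ff measurable_ff ff_nonneg ff_le_one integrableOn_ff)
open Pool.Agent.Q26.FN (pp pp_pos pp_tendsto log_pp weighted rr rr_pos union_asymp)

/-- the rough part of the smallest integer above `β b ^ (2 ^ n)` -/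
noncomputable def WW (b β : ℝ) (n : ℕ) : ℕ := roughPart (2 ^ (n + 1)) (⌊β * b ^ (2 ^ n)⌋₊ + 1)

/-- the phase function -/
noncomputable def yy (α : ℝ) (p : ℕ) (t : ℝ) : ℝ := Real.log (Real.exp t * α ^ p + 1)

/-- its derivative -/
noncomputable def yy' (α : ℝ) (p : ℕ) (t : ℝ) : ℝ :=
  Real.exp (Real.log α * p + t) / (Real.exp (Real.log α * p + t) + 1)

/-- the indicator -/
noncomputable def FF (b : ℝ) (n : ℕ) (t : ℝ) : ℝ := ff (pp n) (yy (√b) (pp n) t)

lemma yy_meas (α : ℝ) (p : ℕ) : Measurable (yy α p) :=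
  Real.measurable_log.comp ((Real.measurable_exp.mul_const _).add_const _)

lemma FF_meas (b : ℝ) (n : ℕ) : Measurable (FF b n) := (measurable_ff _).comp (yy_meas _ _)

lemma FF_nonneg (b : ℝ) (n : ℕ) (t : ℝ) : 0 ≤ FF b n t := ff_nonneg _ _

lemma FF_le (b : ℝ) (n : ℕ) (t : ℝ) : FF b n t ≤ 1 := ff_le_one _ _

lemma FF_cases (b : ℝ) (n : ℕ) (t : ℝ) : FF b n t = 0 ∨ FF b n t = 1 := by
  unfold FF ff
  split_ifs
  · right; rfl
  · left; rfl

lemma pow_eq {b : ℝ} (hb : 1 < b) (n : ℕ) : √b ^ pp n = b ^ (2 ^ n) := by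
  unfold pp
  rw [pow_succ', pow_mul, Real.sq_sqrt (by linarith)]

lemma FF_eq {b : ℝ} (hb : 1 < b) (n : ℕ) {x : ℝ} (hx : 0 < x) (hne : ∀ m : ℕ, x * b ^ (2 ^ n) + 1 ≠ m) :
    FF b n (Real.log x) = if (WW b x n).Prime then 1 else 0 := by
  have hb0 : 0 < b := by linarith
  have hv : 0 < x * b ^ (2 ^ n) := by positivity
  unfold FF yy
  rw [Real.exp_log hx, pow_eq hb, ff_eq_floor (by linarith) hne, Nat.floor_add_one hv.le]
  rfl

lemma fam {b : ℝ} (hb : 1 < b) (a0 a1 : ℝ) : ∀ᶠ p : ℕ in atTop,
    Sh (Real.log (√b)) a0 a1 p (yy (√b) p) (yy' (√b) p) := by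
  have h1 : 1 < √b := by
    rw [show (1 : ℝ) = √1 by simp]
    exact Real.sqrt_lt_sqrt (by norm_num) hb
  exact sh_of (α := √b) (κ := 1) (C := 1) (by linarith) (by norm_num) h1 (g := fun _ => 1) (fun p => by simp) a0 a1

/-- the mean over an arbitrary interval -/
lemma mean_any {a : ℝ} (ha : 0 < a) {y y' : ℕ → ℝ → ℝ} (hy : ∀ p, Measurable (y p))
    (hfam : ∀ a0 a1 : ℝ, ∀ᶠ p : ℕ in atTop, Sh a a0 a1 p (y p) (y' p)) :
    ∀ (N : ℕ) (s t : ℝ), s < t → t - s ≤ N →
    Tendsto (fun p : ℕ => (∫ x in Set.Ioc s t, ff p (y p x)) * (p / Real.log p)) atTop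
      (𝓝 (Real.exp Real.eulerMascheroniConstant * (t - s) / a)) := by
  intro N
  induction N with
  | zero =>
    intro s t hst h
    simp at h
    linarith
  | succ N ih =>
    intro s t hst h
    by_cases h1 : t - s ≤ 1
    · exact mean_shift ha (hfam s t) le_rfl hst le_rfl h1
    · push Not at h1
      push_cast at h
      have k1 := ih s (t - 1) (by linarith) (by linarith)
      have k2 := mean_shift ha (hfam (t - 1) t) (s := t - 1) (t := t) le_rfl (by linarith) le_rfl
        (by linarith)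
      have k3 := k1.add k2
      have e : Real.exp Real.eulerMascheroniConstant * (t - 1 - s) / a +
          Real.exp Real.eulerMascheroniConstant * (t - (t - 1)) / a =
          Real.exp Real.eulerMascheroniConstant * (t - s) / a := by ring
      rw [e] at k3
      refine k3.congr fun n => ?_
      rw [← add_mul]
      congr 1
      have hu : Set.Ioc s t = Set.Ioc s (t - 1) ∪ Set.Ioc (t - 1) t :=
        (Set.Ioc_union_Ioc_eq_Ioc (by linarith) (by linarith)).symm
      have hi : ∀ u v : ℝ, IntegrableOn (fun x => ff n (y n x)) (Set.Ioc u v) := fun u v => by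
        refine Measure.integrableOn_of_bounded (M := 1) (by simp)
          ((measurable_ff n).comp (hy n)).aestronglyMeasurable ?_
        exact Eventually.of_forall fun x => by
          rw [Real.norm_eq_abs, abs_of_nonneg (ff_nonneg n _)]
          exact ff_le_one n _
      rw [hu, setIntegral_union (Set.Ioc_disjoint_Ioc_of_le le_rfl) measurableSet_Ioc
        (hi _ _) (hi _ _)]

/-- the exceptional set is countable -/
lemma exc {b : ℝ} (hb : 1 < b) : ∃ Z : Set ℝ, Z.Countable ∧
    ∀ n, ∀ x, 0 < x → x ∉ Z → (FF b n (Real.log x) = 1 ↔ (WW b x n).Prime) := by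
  have hb0 : 0 < b := by linarith
  refine ⟨⋃ n : ℕ, ⋃ m : ℕ, {x | x * b ^ (2 ^ n) + 1 = m}, ?_, ?_⟩
  · refine Set.countable_iUnion fun n => Set.countable_iUnion fun m => ?_
    refine Set.Subsingleton.countable ?_
    intro x hx z hz
    simp only [Set.mem_ofPred_eq] at hx hz
    have h3 : x * b ^ (2 ^ n) = z * b ^ (2 ^ n) := by linarith
    exact mul_right_cancel₀ (pow_pos hb0 _).ne' h3
  · intro n x hx hxZ
    have hne : ∀ m : ℕ, x * b ^ (2 ^ n) + 1 ≠ m := by
      intro m hm
      refine hxZ ?_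
      simp only [Set.mem_iUnion]
      exact ⟨n, m, hm⟩
    rw [FF_eq hb n hx hne]
    split_ifs with h
    · simp [h]
    · simp [h]

/-- change of variables -/
lemma cov {a c : ℝ} (ha : 0 < a) (hac : a < c) (G : ℝ → ℝ) :
    ∫ x in Set.Ioc a c, G (Real.log x) =
      ∫ t in Set.Ioc (Real.log a) (Real.log c), G t * Real.exp t := by
  have hc : 0 < c := ha.trans hac
  have himg : Real.exp '' Set.Ioc (Real.log a) (Real.log c) = Set.Ioc a c := by
    ext x
    constructor
    · rintro ⟨t, ht, rfl⟩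
      exact ⟨by rw [← Real.log_lt_iff_lt_exp ha]; exact ht.1, by
        rw [← Real.le_log_iff_exp_le hc]; exact ht.2⟩
    · intro hx
      have hx0 : 0 < x := ha.trans hx.1
      exact ⟨Real.log x, ⟨Real.log_lt_log ha hx.1, Real.log_le_log hx0 hx.2⟩, Real.exp_log hx0⟩
  have h := integral_image_eq_integral_abs_deriv_smul (f := Real.exp) (f' := Real.exp) measurableSet_Ioc
    (s := Set.Ioc (Real.log a) (Real.log c))
    (fun t _ => (Real.hasDerivAt_exp t).hasDerivWithinAt) Real.exp_injective.injOn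
    (fun x => G (Real.log x))
  rw [himg] at h
  rw [h]
  refine setIntegral_congr_fun measurableSet_Ioc fun t _ => ?_
  change |Real.exp t| • G (Real.log (Real.exp t)) = G t * Real.exp t
  rw [abs_of_pos (Real.exp_pos t), Real.log_exp, smul_eq_mul, mul_comm]

/-- the measurable versions of the events -/
def EE (b a c : ℝ) (n : ℕ) : Set ℝ := {x | x ∈ Set.Ioo a c ∧ FF b n (Real.log x) = 1}

lemma EE_meas (b a c : ℝ) (n : ℕ) : MeasurableSet (EE b a c n) := by
  refine measurableSet_Ioo.inter ?_
  have h1 : Measurable fun x : ℝ => FF b n (Real.log x) := (FF_meas b n).comp Real.measurable_log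
  exact h1 (measurableSet_singleton 1)

lemma EE_sub (b a c : ℝ) (n : ℕ) : EE b a c n ⊆ Set.Ioo a c := fun _ hx => hx.1

lemma EE_real (b : ℝ) {a c : ℝ} (ha : 0 < a) (hac : a < c) (n : ℕ) : volume.real (EE b a c n) =
    ∫ t in Set.Ioc (Real.log a) (Real.log c), FF b n t * Real.exp t := by
  rw [← cov ha hac (FF b n)]
  have h1 : ∀ x, FF b n (Real.log x) =
      ({x | FF b n (Real.log x) = 1} : Set ℝ).indicator (fun _ => (1 : ℝ)) x := by
    intro x
    rw [Set.indicator_apply]
    rcases FF_cases b n (Real.log x) with h | h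
    · simp [h]
    · simp [h]
  have hms : MeasurableSet {x : ℝ | FF b n (Real.log x) = 1} := by
    have h1 : Measurable fun x : ℝ => FF b n (Real.log x) := (FF_meas b n).comp Real.measurable_log
    exact h1 (measurableSet_singleton 1)
  calc volume.real (EE b a c n) = ∫ x in Set.Ioo a c,
        ({x | FF b n (Real.log x) = 1} : Set ℝ).indicator (fun _ => (1 : ℝ)) x := by
          rw [setIntegral_indicator hms, setIntegral_const, smul_eq_mul, mul_one]
          rfl
    _ = ∫ x in Set.Ioc a c, ({x | FF b n (Real.log x) = 1} : Set ℝ).indicator (fun _ => (1 : ℝ)) x :=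
          (integral_Ioc_eq_integral_Ioo).symm
    _ = ∫ x in Set.Ioc a c, FF b n (Real.log x) := by simp_rw [← h1]

lemma EE_inter (b : ℝ) {a c : ℝ} (ha : 0 < a) (hac : a < c) (n m : ℕ) :
    volume.real (EE b a c n ∩ EE b a c m) ≤ c *
      ∫ t in Set.Ioc (Real.log a) (Real.log c), FF b n t * FF b m t := by
  have hc : 0 < c := ha.trans hac
  have hmn : ∀ k, Measurable fun x : ℝ => FF b k (Real.log x) := fun k =>
    (FF_meas b k).comp Real.measurable_log
  have hms : ∀ k, MeasurableSet {x : ℝ | FF b k (Real.log x) = 1} := fun k =>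
    (hmn k) (measurableSet_singleton 1)
  have h1 : ∀ x, FF b n (Real.log x) * FF b m (Real.log x) =
      ({x | FF b n (Real.log x) = 1} ∩ {x | FF b m (Real.log x) = 1} : Set ℝ).indicator
        (fun _ => (1 : ℝ)) x := by
    intro x
    rw [Set.indicator_apply]
    rcases FF_cases b n (Real.log x) with h | h <;>
      rcases FF_cases b m (Real.log x) with h' | h' <;> simp [h, h']
  have e : volume.real (EE b a c n ∩ EE b a c m) =
      ∫ t in Set.Ioc (Real.log a) (Real.log c), FF b n t * FF b m t * Real.exp t := by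
    rw [← cov ha hac (fun t => FF b n t * FF b m t)]
    calc volume.real (EE b a c n ∩ EE b a c m) = ∫ x in Set.Ioo a c,
          ({x | FF b n (Real.log x) = 1} ∩ {x | FF b m (Real.log x) = 1} : Set ℝ).indicator
            (fun _ => (1 : ℝ)) x := by
            rw [setIntegral_indicator ((hms n).inter (hms m)), setIntegral_const, smul_eq_mul, mul_one]
            congr 1
            ext x
            simp only [EE, Set.mem_inter_iff, Set.mem_ofPred_eq]
            tauto
      _ = ∫ x in Set.Ioc a c,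
          ({x | FF b n (Real.log x) = 1} ∩ {x | FF b m (Real.log x) = 1} : Set ℝ).indicator
            (fun _ => (1 : ℝ)) x := (integral_Ioc_eq_integral_Ioo).symm
      _ = ∫ x in Set.Ioc a c, FF b n (Real.log x) * FF b m (Real.log x) := by simp_rw [← h1]
  have hmeas : Measurable fun t => FF b n t * FF b m t := (FF_meas b n).mul (FF_meas b m)
  have hbd : ∀ t, 0 ≤ FF b n t * FF b m t ∧ FF b n t * FF b m t ≤ 1 := fun t => by
    rcases FF_cases b n t with h | h <;> rcases FF_cases b m t with h' | h' <;>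
      simp [h, h']
  rw [e, ← integral_const_mul]
  have hint : IntegrableOn (fun t => FF b n t * FF b m t)
      (Set.Ioc (Real.log a) (Real.log c)) := by
    refine Measure.integrableOn_of_bounded (M := 1) (by simp) hmeas.aestronglyMeasurable ?_
    exact Eventually.of_forall fun t => by
      rw [Real.norm_eq_abs, abs_of_nonneg (hbd t).1]; exact (hbd t).2
  have hexp : ∀ t ∈ Set.Ioc (Real.log a) (Real.log c), Real.exp t ≤ c := fun t ht => by
    rw [← Real.le_log_iff_exp_le hc]
    exact ht.2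
  refine setIntegral_mono_on ?_ (hint.const_mul _) measurableSet_Ioc fun t ht => ?_
  · refine Measure.integrableOn_of_bounded (M := c) (by simp)
      (hmeas.mul Real.measurable_exp).aestronglyMeasurable ?_
    filter_upwards [ae_restrict_mem measurableSet_Ioc] with t ht
    have h3 := hexp t ht
    have h4 := hbd t
    have h5 := Real.exp_pos t
    rw [Real.norm_eq_abs, abs_of_nonneg (mul_nonneg h4.1 h5.le)]
    nlinarith
  · have h3 := hexp t ht
    have h4 := hbd t
    nlinarith

/-- the first moment -/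
theorem mean {b : ℝ} (hb : 1 < b) {a c : ℝ} (ha : 0 < a) (hac : a < c) :
    Tendsto (fun n => volume.real (EE b a c n) / rr n) atTop
      (𝓝 (Real.exp Real.eulerMascheroniConstant * Real.log 2 / Real.log b * (c - a))) := by
  have hc : 0 < c := ha.trans hac
  have hlb : 0 < Real.log b := Real.log_pos hb
  have hla : Real.log (√b) = Real.log b / 2 := Real.log_sqrt (by linarith)
  have hlac : Real.log a < Real.log c := Real.log_lt_log ha hac
  set s := Real.log a with hs
  set t := Real.log c with ht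
  set G := Real.exp Real.eulerMascheroniConstant with hG
  have hlim : ∀ v, s < v → v ≤ t →
      Tendsto (fun n => (∫ x in Set.Ioc s v, FF b n x) * (pp n / Real.log (pp n))) atTop
        (𝓝 ((fun u => G / (Real.log b / 2) * u) v - (fun u => G / (Real.log b / 2) * u) s)) := by
    intro v hv1 hv2
    obtain ⟨N, hN⟩ := exists_nat_ge (v - s)
    have h := (mean_any (a := Real.log (√b)) (by rw [hla]; positivity) (y := yy (√b)) (y' := yy' (√b))
      (yy_meas _) (fam hb) N s v hv1 hN).comp pp_tendsto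
    have e : G * (v - s) / Real.log (√b) =
        (fun u => G / (Real.log b / 2) * u) v - (fun u => G / (Real.log b / 2) * u) s := by
      rw [hla]
      ring
    rw [← e]
    exact h
  have hw := weighted (F := FF b) (c := fun n => (pp n : ℝ) / Real.log (pp n))
    (L := fun u => G / (Real.log b / 2) * u) (g := fun _ => G / (Real.log b / 2)) (W := Real.exp) (W' := Real.exp)
    hlac (FF_meas b) (fun n x => FF_nonneg b n x) (fun n x => FF_le b n x)
    (fun n => div_nonneg (pp_pos n).le (Real.log_natCast_nonneg _))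
    (fun u _ => by simpa using (hasDerivAt_id u).const_mul (G / (Real.log b / 2)))
    continuousOn_const hlim (fun u => Real.hasDerivAt_exp u) Real.continuous_exp
  have hconst : ∫ u in s..t, G / (Real.log b / 2) * Real.exp u = G / (Real.log b / 2) * (c - a) := by
    rw [intervalIntegral.integral_const_mul, integral_exp, ht, hs, Real.exp_log hc, Real.exp_log ha]
  rw [hconst] at hw
  have hw2 := hw.mul_const (Real.log 2 / 2)
  have e1 : G / (Real.log b / 2) * (c - a) * (Real.log 2 / 2) = G * Real.log 2 / Real.log b * (c - a) := by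
    field_simp
  rw [e1] at hw2
  refine hw2.congr fun n => ?_
  rw [EE_real b ha hac, ← hs, ← ht, log_pp]
  have hl2 : 0 < Real.log 2 := Real.log_pos (by norm_num)
  have hn : (0 : ℝ) < n + 1 := by positivity
  generalize (∫ x in Set.Ioc s t, FF b n x * Real.exp x) = I
  unfold rr pp
  push_cast
  rw [pow_succ]
  field_simp

/-- the pair bound -/
theorem pair {b : ℝ} (hb : 1 < b) {a c : ℝ} (ha : 0 < a) (hac : a < c) : ∃ (K : ℝ) (n₀ : ℕ), 0 ≤ K ∧
    ∀ n m, n₀ ≤ n → n < m → volume.real (EE b a c n ∩ EE b a c m) ≤ K * (rr n * rr m) := by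
  have hc : 0 < c := ha.trans hac
  have hlb : 0 < Real.log b := Real.log_pos hb
  have hla : Real.log (√b) = Real.log b / 2 := Real.log_sqrt (by linarith)
  have hlac : Real.log a < Real.log c := Real.log_lt_log ha hac
  set s := Real.log a with hs
  set t := Real.log c with ht
  obtain ⟨A, hA⟩ : ∃ A, A = Real.log (√b) := ⟨_, rfl⟩
  have hA0 : 0 < A := by rw [hA, hla]; positivity
  have hev := fam hb (s - 1) (t + 1)
  rw [← hA] at hev
  obtain ⟨K, hK, P, hP⟩ := pair_bound_sh (a := A) (a0 := s - 1) (a1 := t + 1) (b0 := s) (b1 := t)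
    hA0 (by linarith) (by linarith)
  have hB : 0 < 64 / A := by positivity
  have hsmall : ∀ᶠ q : ℕ in atTop, 64 / A * (Real.log q * Real.log (Real.log q)) ≤ q / 2 := by
    have h1 : ∀ᶠ x : ℝ in atTop, 64 / A * (Real.log x * Real.log (Real.log x)) ≤ x / 2 := by
      have h2 := (Real.isLittleO_pow_log_id_atTop (n := 2)).bound (c := 1 / (2 * (64 / A))) (by positivity)
      filter_upwards [h2, eventually_ge_atTop (1 : ℝ), Real.tendsto_log_atTop.eventually_ge_atTop 1]
        with x h3 h4 h5
      have h6 : Real.log (Real.log x) ≤ Real.log x := (Real.log_le_sub_one_of_pos (by linarith)).trans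
        (by linarith)
      rw [Real.norm_eq_abs, Real.norm_eq_abs, abs_of_nonneg (by positivity), id,
        abs_of_nonneg (by linarith)] at h3
      have h7 : Real.log x * Real.log (Real.log x) ≤ Real.log x ^ 2 := by
        rw [sq]
        exact mul_le_mul_of_nonneg_left h6 (by linarith)
      calc 64 / A * (Real.log x * Real.log (Real.log x)) ≤
          64 / A * (1 / (2 * (64 / A)) * x) :=
            mul_le_mul_of_nonneg_left (h7.trans h3) hB.le
        _ = x / 2 := by field_simp
    exact tendsto_natCast_atTop_atTop.eventually h1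
  obtain ⟨n₀, hn₀⟩ := eventually_atTop.1 (pp_tendsto.eventually
    (hev.and (hsmall.and (eventually_ge_atTop P))))
  refine ⟨c * (K * ((t - s) + 1)) * (2 * (Real.log 2 / 2) ^ 2), n₀, ?_, ?_⟩
  · have : 0 < t - s := by linarith
    positivity
  intro n m hn hnm
  have hpm : (2 : ℝ) * pp n ≤ pp m := by
    unfold pp
    push_cast
    rw [← pow_succ']
    exact pow_le_pow_right₀ (by norm_num) (by omega)
  have hp1 : (1 : ℝ) ≤ pp n := by
    unfold pp
    push_cast
    exact one_le_pow₀ (by norm_num)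
  have hppos := pp_pos n
  have hqpos := pp_pos m
  have hlt : pp n < pp m := by
    have : (pp n : ℝ) < pp m := by linarith
    exact_mod_cast this
  obtain ⟨g1, _, g3⟩ := hn₀ n hn
  obtain ⟨g4, g5, _⟩ := hn₀ m (by omega)
  have h1 := hP (pp n) (pp m) g3 hlt _ _ _ _ g1 g4 (by linarith) s t le_rfl hlac.le le_rfl
  have h2 := EE_inter b ha hac n m
  have hl2 : 0 < Real.log 2 := Real.log_pos (by norm_num)
  have hlog : ∀ k : ℕ, Real.log (pp k) / pp k = Real.log 2 / 2 * rr k := by
    intro k
    rw [log_pp]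
    unfold rr pp
    push_cast
    rw [pow_succ]
    field_simp
  have h3 : Real.log (pp m) / (pp m - pp n) ≤ 2 * (Real.log (pp m) / pp m) := by
    rw [div_le_iff₀ (by linarith)]
    have h4 : 0 ≤ Real.log (pp m) := Real.log_natCast_nonneg _
    have h5 : 2 * (Real.log (pp m) / pp m) * (pp m - pp n) =
        Real.log (pp m) * (2 * (pp m - pp n) / pp m) := by field_simp
    rw [h5]
    refine le_mul_of_one_le_right h4 ?_
    rw [le_div_iff₀ hqpos]
    linarith
  have h4 : 0 ≤ Real.log (pp n) / pp n := div_nonneg (Real.log_natCast_nonneg _) hppos.le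
  have h5 : 1 / (pp n : ℝ) ≤ 1 := by rw [div_le_one hppos]; exact hp1
  have h6 : 0 < t - s := by linarith
  refine h2.trans ?_
  calc c * ∫ t in Set.Ioc s t, FF b n t * FF b m t ≤
      c * (K * ((t - s) + 1 / pp n) * (Real.log (pp n) / pp n) *
        (Real.log (pp m) / (pp m - pp n))) := mul_le_mul_of_nonneg_left h1 (by positivity)
    _ ≤ c * (K * ((t - s) + 1) * (Real.log (pp n) / pp n) * (2 * (Real.log (pp m) / pp m))) := by
        refine mul_le_mul_of_nonneg_left ?_ (by positivity)
        refine mul_le_mul (mul_le_mul_of_nonneg_right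
          (mul_le_mul_of_nonneg_left (by linarith) hK.le) h4) h3 ?_ (by positivity)
        exact div_nonneg (Real.log_natCast_nonneg _) (by linarith)
    _ = c * (K * ((t - s) + 1)) * (2 * (Real.log 2 / 2) ^ 2) * (rr n * rr m) := by
        rw [hlog n, hlog m]
        ring

/-- the events and their measurable versions -/
lemma same {b : ℝ} (hb : 1 < b) {a c : ℝ} (ha : 0 < a) (N : ℕ) :
    volume.real {x | x ∈ Set.Ioo a c ∧ (WW b x N).Prime} = volume.real (EE b a c N) ∧
    (∀ m, volume.real {x | x ∈ Set.Ioo a c ∧ (WW b x N).Prime ∧ (WW b x m).Prime} =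
      volume.real (EE b a c N ∩ EE b a c m)) ∧
    volume.real {x | x ∈ Set.Ioo a c ∧ ∃ n, N ≤ n ∧ (WW b x n).Prime} =
      volume.real {x | ∃ n, N ≤ n ∧ x ∈ EE b a c n} := by
  obtain ⟨Z, hZ, h⟩ := exc hb
  have hZ0 : ∀ᵐ x : ℝ, x ∉ Z := by
    rw [ae_iff]
    simpa using hZ.measure_zero volume
  have hpos : ∀ x ∈ Set.Ioo a c, 0 < x := fun x hx => ha.trans hx.1
  refine ⟨?_, fun m => ?_, ?_⟩
  · refine measureReal_congr ?_
    filter_upwards [hZ0] with x hx
    refine propext ⟨fun hx2 => ⟨hx2.1, (h N x (hpos x hx2.1) hx).2 hx2.2⟩, fun hx2 => ?_⟩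
    exact ⟨hx2.1, (h N x (hpos x hx2.1) hx).1 hx2.2⟩
  · refine measureReal_congr ?_
    filter_upwards [hZ0] with x hx
    refine propext ⟨fun hx2 => ⟨⟨hx2.1, (h N x (hpos x hx2.1) hx).2 hx2.2.1⟩,
      ⟨hx2.1, (h m x (hpos x hx2.1) hx).2 hx2.2.2⟩⟩, fun hx2 => ?_⟩
    exact ⟨hx2.1.1, (h N x (hpos x hx2.1.1) hx).1 hx2.1.2, (h m x (hpos x hx2.1.1) hx).1 hx2.2.2⟩
  · refine measureReal_congr ?_
    filter_upwards [hZ0] with x hx
    refine propext ⟨fun hx2 => ?_, fun hx2 => ?_⟩
    · obtain ⟨h1, n, hn, h2⟩ := hx2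
      exact ⟨n, hn, h1, (h n x (hpos x h1) hx).2 h2⟩
    · obtain ⟨n, hn, h1, h2⟩ := hx2
      exact ⟨h1, n, hn, (h n x (hpos x h1) hx).1 h2⟩

/-- **The law.** -/
theorem law {b : ℝ} (hb : 1 < b) {a c : ℝ} (ha : 0 < a) (hac : a < c) :
    Tendsto (fun n : ℕ => volume.real {x | x ∈ Set.Ioo a c ∧ (WW b x n).Prime} * (2 ^ n / n)) atTop
      (𝓝 (Real.exp Real.eulerMascheroniConstant * Real.log 2 / Real.log b * (c - a))) ∧
    Tendsto (fun N : ℕ => volume.real {x | x ∈ Set.Ioo a c ∧ ∃ n, N ≤ n ∧ (WW b x n).Prime} *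
      (2 ^ N / N)) atTop
      (𝓝 (2 * (Real.exp Real.eulerMascheroniConstant * Real.log 2 / Real.log b * (c - a)))) ∧
    ∃ (K : ℝ) (n₀ : ℕ), ∀ n m, n₀ ≤ n → n < m →
      volume.real {x | x ∈ Set.Ioo a c ∧ (WW b x n).Prime ∧ (WW b x m).Prime} ≤
        K * ((n / 2 ^ n) * (m / 2 ^ m)) := by
  have hn₀ := fun N => same (c := c) hb ha N
  obtain ⟨K, n₁, hK, hn₁⟩ := pair hb ha hac
  have hm := mean hb ha hac
  refine ⟨?_, ?_, 4 * K, max n₁ 1, fun n m hn hnm => ?_⟩
  · have h1 : Tendsto (fun n : ℕ => 1 + 1 / (n : ℝ)) atTop (𝓝 (1 + 0)) :=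
      (tendsto_const_div_atTop_nhds_zero_nat 1).const_add 1
    have h2 := hm.mul h1
    rw [add_zero, mul_one] at h2
    refine h2.congr' ?_
    filter_upwards [eventually_ge_atTop 1] with n hn
    have hn0 : (0 : ℝ) < n := by exact_mod_cast (by omega : 0 < n)
    rw [(hn₀ n).1]
    unfold rr
    field_simp
  · refine (union_asymp (EE_meas b a c) (EE_sub b a c) hK hm hn₁).congr' ?_
    filter_upwards with N
    rw [(hn₀ N).2.2]
  · have e2 : n₁ ≤ n := (le_max_left _ _).trans hn
    have e3 : 1 ≤ n := (le_max_right _ _).trans hn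
    rw [(hn₀ n).2.1 m]
    refine (hn₁ n m e2 hnm).trans ?_
    have hr : ∀ k : ℕ, 1 ≤ k → rr k ≤ 2 * (k / 2 ^ k) := by
      intro k hk
      have : (1 : ℝ) ≤ k := by exact_mod_cast hk
      unfold rr
      rw [mul_div_assoc']
      exact div_le_div_of_nonneg_right (by linarith) (by positivity)
    have h1 := hr n e3
    have h2 := hr m (by omega)
    calc K * (rr n * rr m) ≤ K * ((2 * (n / 2 ^ n)) * (2 * (m / 2 ^ m))) :=
          mul_le_mul_of_nonneg_left (mul_le_mul h1 h2 (rr_pos m).le (by positivity)) hK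
      _ = 4 * K * ((n / 2 ^ n) * (m / 2 ^ m)) := by ring

/-- almost every amplitude has only finitely many -/
theorem finite_ae {b : ℝ} (hb : 1 < b) : ∀ᵐ x : ℝ, 0 < x → {n : ℕ | (WW b x n).Prime}.Finite := by
  have hab : ∀ a c : ℝ, 0 < a → a < c → ∀ᵐ x : ℝ, x ∈ Set.Ioo a c → {n : ℕ | (WW b x n).Prime}.Finite := by
    intro a c ha hac
    set S : ℕ → Set ℝ := fun N => {x | x ∈ Set.Ioo a c ∧ ∃ n, N ≤ n ∧ (WW b x n).Prime} with hS
    have hl := (law hb ha hac).2.1
    have h1 : Tendsto (fun N : ℕ => (N : ℝ) / 2 ^ N) atTop (𝓝 0) := by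
      have h := tendsto_self_mul_const_pow_of_lt_one (r := (1 : ℝ) / 2) (by norm_num) (by norm_num)
      refine h.congr fun n => ?_
      rw [one_div, inv_pow, div_eq_mul_inv]
    have h2 := hl.mul h1
    rw [mul_zero] at h2
    have h3 : Tendsto (fun N => volume.real (S N)) atTop (𝓝 0) := by
      refine h2.congr' ?_
      filter_upwards [eventually_ge_atTop 1] with N hN
      have : (0 : ℝ) < N := by exact_mod_cast hN
      change volume.real (S N) * (2 ^ N / N) * (N / 2 ^ N) = volume.real (S N)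
      field_simp
    have hfin : ∀ N, volume (S N) ≠ ⊤ := fun N =>
      ((measure_mono (fun x hx => hx.1 : S N ⊆ Set.Ioo a c)).trans_lt (by simp [Real.volume_Ioo])).ne
    have h4 : volume (⋂ N, S N) = 0 := by
      have h5 : ∀ ε : ℝ, 0 < ε → volume (⋂ N, S N) ≤ ENNReal.ofReal ε := by
        intro ε hε
        obtain ⟨N, hN⟩ := (h3.eventually_lt_const hε).exists
        refine (measure_mono (Set.iInter_subset S N)).trans ?_
        rw [← ofReal_measureReal (hfin N)]
        exact ENNReal.ofReal_le_ofReal hN.le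
      refine le_antisymm (le_of_forall_gt_imp_ge_of_dense fun c hc => ?_) zero_le
      rcases eq_or_ne c ⊤ with rfl | hct
      · exact le_top
      · have := h5 c.toReal (ENNReal.toReal_pos hc.ne' hct)
        rwa [ENNReal.ofReal_toReal hct] at this
    rw [← compl_mem_ae_iff] at h4
    filter_upwards [h4] with x hx hxab
    rw [Set.mem_compl_iff, Set.mem_iInter] at hx
    push Not at hx
    obtain ⟨N, hN⟩ := hx
    refine (Set.finite_lt_nat N).subset fun n hn => ?_
    by_contra hc
    rw [Set.mem_ofPred_eq, not_lt] at hc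
    exact hN ⟨hxab, n, hc, hn⟩
  have hk : ∀ᵐ x : ℝ, ∀ k : ℕ, x ∈ Set.Ioo (1 / ((k : ℝ) + 1)) (k + 3) →
      {n : ℕ | (WW b x n).Prime}.Finite := by
    rw [ae_all_iff]
    intro k
    have hk0 : (0 : ℝ) ≤ k := Nat.cast_nonneg k
    have h3 : 0 < 1 / ((k : ℝ) + 1) := by positivity
    have h4 : 1 / ((k : ℝ) + 1) ≤ 1 := by rw [div_le_one (by linarith)]; linarith
    exact hab _ _ (by linarith) (by linarith)
  filter_upwards [hk] with x hx hx0
  obtain ⟨k, hk⟩ := exists_nat_gt (max (1 / x) x)
  have hk1 : 1 / x < k := (le_max_left _ _).trans_lt hk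
  have hk2 : x < k := (le_max_right _ _).trans_lt hk
  refine hx k ⟨?_, by linarith⟩
  rw [div_lt_iff₀ hx0] at hk1
  rw [div_lt_iff₀ (by have := Nat.cast_nonneg (α := ℝ) k; linarith)]
  linarith

/-- generic amplitudes have infinitely many -/
theorem generic {b : ℝ} (hb : 1 < b) : {x : ℝ | 0 < x → {n : ℕ | (WW b x n).Prime}.Infinite} ∈ residual ℝ := by
  have hb0 : 0 < b := by linarith
  obtain ⟨U, hU⟩ : ∃ U : ℕ → Set ℝ, U = fun N => {x | x < 0} ∪ interior {x | 0 < x ∧ ∃ n, N ≤ n ∧ (WW b x n).Prime} :=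
    ⟨_, rfl⟩
  have hopen : ∀ N, IsOpen (U N) := by
    intro N
    rw [hU]
    exact (isOpen_gt' (0 : ℝ)).union isOpen_interior
  have hdense : ∀ N, Dense (U N) := by
    intro N
    rw [dense_iff_inter_open]
    intro V hV ⟨v, hv⟩
    obtain ⟨ε, hε, hball⟩ := Metric.isOpen_iff.1 hV v hv
    by_cases hv0 : v < 0
    · refine ⟨v, hv, ?_⟩
      rw [hU]
      exact Or.inl hv0
    · push Not at hv0
      -- an interval inside of the positive part of the ball
      have hsub : ∀ x, v + ε / 4 < x → x < v + ε / 2 → x ∈ V := by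
        intro x h1 h2
        apply hball
        rw [Metric.mem_ball, Real.dist_eq, abs_lt]
        constructor <;> linarith
      have hl := (law hb (a := v + ε / 4) (c := v + ε / 2) (by linarith) (by linarith)).1
      have hlb : 0 < Real.log b := Real.log_pos hb
      have hpos : 0 < Real.exp Real.eulerMascheroniConstant * Real.log 2 / Real.log b * (v + ε / 2 - (v + ε / 4)) := by
        have h1 : 0 < Real.log 2 := Real.log_pos (by norm_num)
        have h2 : 0 < v + ε / 2 - (v + ε / 4) := by linarith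
        positivity
      obtain ⟨n, hn, hnN⟩ := ((hl.eventually_const_lt hpos).and (eventually_ge_atTop N)).exists
      have hne : ({x | x ∈ Set.Ioo (v + ε / 4) (v + ε / 2) ∧ (WW b x n).Prime} : Set ℝ).Nonempty := by
        by_contra hcon
        rw [Set.not_nonempty_iff_eq_empty] at hcon
        rw [hcon] at hn
        simp at hn
      obtain ⟨x, ⟨hx1, hx2⟩, hx3⟩ := hne
      have hx0 : 0 < x := by linarith
      -- a little above `x` the integer part is the same
      have hbn : 0 < b ^ (2 ^ n) := by positivity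
      obtain ⟨y, hy⟩ : ∃ y, y = min (v + ε / 2) ((⌊x * b ^ (2 ^ n)⌋₊ + 1) / b ^ (2 ^ n)) := ⟨_, rfl⟩
      have hxy : x < y := by
        rw [hy, lt_min_iff]
        refine ⟨hx2, ?_⟩
        rw [lt_div_iff₀ hbn]
        exact Nat.lt_floor_add_one _
      have hsame : ∀ z ∈ Set.Ioo x y, (WW b z n).Prime := by
        intro z hz
        have h1 : ⌊z * b ^ (2 ^ n)⌋₊ = ⌊x * b ^ (2 ^ n)⌋₊ := by
          rw [Nat.floor_eq_iff (mul_nonneg (by linarith [hz.1]) hbn.le)]
          constructor
          · exact (Nat.floor_le (by positivity)).trans (mul_le_mul_of_nonneg_right hz.1.le hbn.le)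
          · have h2 : z < (⌊x * b ^ (2 ^ n)⌋₊ + 1) / b ^ (2 ^ n) := by
              have := hz.2
              rw [hy, lt_min_iff] at this
              exact this.2
            rw [lt_div_iff₀ hbn] at h2
            exact h2
        unfold WW at hx3 ⊢
        rw [h1]
        exact hx3
      refine ⟨(x + y) / 2, hsub _ (by linarith) ?_, ?_⟩
      · have : y ≤ v + ε / 2 := by rw [hy]; exact min_le_left _ _
        linarith
      · rw [hU]
        refine Or.inr (mem_interior.2 ⟨Set.Ioo x y, ?_, isOpen_Ioo, ⟨by linarith, by linarith⟩⟩)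
        intro z hz
        exact ⟨hx0.trans hz.1, n, hnN, hsame z hz⟩
  have hres : (⋂ N, U N) ∈ residual ℝ := by
    rw [mem_residual_iff]
    refine ⟨Set.range U, ?_, ?_, Set.countable_range U, ?_⟩
    · rintro _ ⟨N, rfl⟩
      exact hopen N
    · rintro _ ⟨N, rfl⟩
      exact hdense N
    · rw [Set.sInter_range]
  refine mem_of_superset hres ?_
  intro x hx hx0
  rw [Set.mem_iInter] at hx
  rw [Set.infinite_iff_exists_gt]
  intro N
  have h1 := hx (N + 1)
  rw [hU] at h1
  rcases h1 with h1 | h1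
  · exact absurd hx0 (not_lt.2 (le_of_lt h1))
  · obtain ⟨_, n, hn, hp⟩ := interior_subset h1
    exact ⟨n, hp, by omega⟩

/-- with amplitude one and an even base the numbers are the generalised Fermat numbers -/
theorem even_base {b : ℕ} (hb : Even b) (n : ℕ) : WW b 1 n = b ^ (2 ^ n) + 1 := by
  have h := Pool.Agent.Q26.FN.even_base (A := fun _ => 1) hb rfl n
  rw [← h]
  unfold WW Pool.Agent.Q26.FN.WW
  congr 1
  rw [one_mul, one_mul, Nat.floor_add_one (by positivity)]

end Pool.Agent.Q21.FA
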